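import Pool.Agent.Work.MP_93d788_an.Weak

/-!
# MP_93d788_an: every norm open subset of `C(K)` is weakly Borel
-/

set_option autoImplicit false

namespace Pool.Agent.MP93d788

open MeasureTheory Set
open scoped Topology ENNReal

/-- rational step functions with coordinates in `A` -/
def stf (A : Finset S) (n : ℕ) (q : (Fin n → Bool) → (A → Bool) → ℚ) : C(K, ℝ) where
  toFun x := (q (fun i => x.1.1 i) (fun s => x.1.2 s) : ℝ)
  continuous_toFun := by
    have h1 : Continuous fun x : K =>
        ((fun i => x.1.1 i, fun s => x.1.2 s) : (Fin n → Bool) × (A → Bool)) := by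
      refine Continuous.prodMk ?_ ?_
      · exact continuous_pi fun i => continuous_fst_apply _
      · exact continuous_pi fun s => continuous_snd_apply _
    have h2 : Continuous fun c : (Fin n → Bool) × (A → Bool) => (q c.1 c.2 : ℝ) :=
      continuous_of_discreteTopology
    exact h2.comp h1

lemma exists_gen (A : Finset S) :
    ∃ g : ℕ → C(K, ℝ), ∀ n q, ∃ j, g j = stf A n q := by
  obtain ⟨e, he⟩ := exists_surjective_nat (Σ n : ℕ, ((Fin n → Bool) → (A → Bool) → ℚ))
  refine ⟨fun j => stf A (e j).1 (e j).2, fun n q => ?_⟩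
  obtain ⟨j, hj⟩ := he ⟨n, q⟩
  refine ⟨j, ?_⟩
  change stf A (e j).1 (e j).2 = stf A n q
  rw [hj]

lemma approx (f : C(K, ℝ)) (A : Finset S) (n : ℕ) {δ : ℝ} (hδ : 0 < δ)
    (h : ∀ x y, Close n ↑A x y → |f x - f y| < δ) :
    ∃ q, dist f (stf A n q) ≤ 2 * δ := by
  classical
  choose r hr using fun x : K => exists_rat_near (f x) hδ
  let q : (Fin n → Bool) → (A → Bool) → ℚ := fun u v =>
    if hx : ∃ x : K, (fun i : Fin n => x.1.1 i) = u ∧ (fun s : A => x.1.2 s) = v then
      r hx.choose else 0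
  refine ⟨q, ?_⟩
  rw [ContinuousMap.dist_le (by positivity)]
  intro x
  have hx : ∃ x' : K, (fun i : Fin n => x'.1.1 i) = (fun i : Fin n => x.1.1 i) ∧
      (fun s : A => x'.1.2 s) = (fun s : A => x.1.2 s) := ⟨x, rfl, rfl⟩
  have hq : stf A n q x = r hx.choose := by
    change ((q _ _ : ℚ) : ℝ) = _
    simp only [q]
    rw [dif_pos hx]
  rw [hq, Real.dist_eq]
  obtain ⟨h1, h2⟩ := hx.choose_spec
  set x' := hx.choose
  have h3 : |f x - f x'| < δ := by
    refine h _ _ ⟨fun i hi => ?_, fun s hs => ?_⟩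
    · exact (congrFun h1 ⟨i, hi⟩).symm
    · exact (congrFun h2 ⟨s, hs⟩).symm
  have h4 := hr x'
  rw [abs_le]
  rw [abs_lt] at h3 h4
  constructor <;> linarith [h3.1, h3.2, h4.1, h4.2]

lemma isOpen_compl_closedBall (g : C(K, ℝ)) {δ : ℝ} (hδ : 0 < δ) :
    IsOpen[tw] (Metric.closedBall g δ)ᶜ := by
  have : (Metric.closedBall g δ)ᶜ = ⋃ x : K, {f : C(K, ℝ) | δ < |f x - g x|} := by
    ext f
    simp only [mem_compl_iff, Metric.mem_closedBall, mem_iUnion, mem_ofPred_eq]
    rw [ContinuousMap.dist_le hδ.le]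
    push Not
    simp only [Real.dist_eq]
  rw [this]
  refine @isOpen_iUnion _ _ tw _ fun x => ?_
  have hc : @Continuous _ _ tw _ fun f : C(K, ℝ) => (ContinuousMap.evalCLM ℝ x) f :=
    continuous_tw _
  have ho : IsOpen {y : ℝ | δ < |y - g x|} :=
    isOpen_lt continuous_const (continuous_id.sub continuous_const).abs
  exact @IsOpen.preimage _ _ tw _ _ hc _ ho

lemma le_tw : (inferInstance : TopologicalSpace C(K, ℝ)) ≤ tw :=
  continuous_iff_le_induced.1 (continuous_pi fun φ => φ.continuous)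

theorem weak_eq : @borel C(K, ℝ) tw = borel C(K, ℝ) := by
  classical
  apply le_antisymm
  · exact borel_anti le_tw
  refine MeasurableSpace.generateFrom_le fun U hU => ?_
  choose g hg using exists_gen
  let δ : ℕ → ℝ := fun i => 1 / ((i : ℝ) + 1)
  have hδ : ∀ i, 0 < δ i := fun i => by positivity
  let D : ℕ → ℕ → ℕ → Set (Finset S) := fun i m j =>
    {A | A.card = m ∧ Metric.closedBall (g A j) (δ i) ⊆ U}
  let O1 : ℕ → ℕ → ℕ → ℕ → Set C(K, ℝ) := fun i l m j =>
    ⋃ A ∈ D i m j, {f : C(K, ℝ) | (A : Set S) ⊆ Aset (δ l) f}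
  let O2 : ℕ → ℕ → ℕ → ℕ → Set C(K, ℝ) := fun i l m j =>
    ⋃ A ∈ D i m j, ({f : C(K, ℝ) | (A : Set S) ⊆ Aset (δ l) f} ∩
      (Metric.closedBall (g A j) (δ i))ᶜ)
  let N : ℕ → ℕ → Set C(K, ℝ) := fun l m =>
    ⋃ A ∈ {A : Finset S | A.card = m + 1}, {f : C(K, ℝ) | (A : Set S) ⊆ Aset (δ l) f}
  have hO1 : ∀ i l m j, MeasurableSet[@borel C(K, ℝ) tw] (O1 i l m j) := by
    intro i l m j
    refine MeasurableSpace.measurableSet_generateFrom ?_
    exact @isOpen_iUnion _ _ tw _ fun A => @isOpen_iUnion _ _ tw _ fun _ =>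
      isOpen_subset_Aset _ _
  have hO2 : ∀ i l m j, MeasurableSet[@borel C(K, ℝ) tw] (O2 i l m j) := by
    intro i l m j
    refine MeasurableSpace.measurableSet_generateFrom ?_
    exact @isOpen_iUnion _ _ tw _ fun A => @isOpen_iUnion _ _ tw _ fun _ =>
      @IsOpen.inter _ tw _ _ (isOpen_subset_Aset _ _) (isOpen_compl_closedBall _ (hδ i))
  have hN : ∀ l m, MeasurableSet[@borel C(K, ℝ) tw] (N l m) := by
    intro l m
    refine MeasurableSpace.measurableSet_generateFrom ?_
    exact @isOpen_iUnion _ _ tw _ fun A => @isOpen_iUnion _ _ tw _ fun _ =>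
      isOpen_subset_Aset _ _
  have hUeq : U = ⋃ i, ⋃ l, ⋃ m, ⋃ j, (O1 i l m j \ (N l m ∪ O2 i l m j)) := by
    apply Subset.antisymm
    · intro f hf
      have hU' : IsOpen U := hU
      obtain ⟨r, hr, hball⟩ := Metric.isOpen_iff.1 hU' f hf
      obtain ⟨i, hi⟩ := exists_nat_one_div_lt (half_pos hr)
      have hi' : 2 * δ i < r := by
        have : δ i < r / 2 := hi
        linarith
      obtain ⟨n, F, hFT, hF⟩ := unif_dep f {s | ∃ ε, 0 < ε ∧ s ∈ Aset ε f}
        (fun x y h1 h2 => key f x y h1 h2) (half_pos (hδ i))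
      -- a common level
      obtain ⟨l, hl⟩ : ∃ l : ℕ, (F : Set S) ⊆ Aset (δ l) f := by
        have h1 : ∀ s ∈ F, ∃ l : ℕ, s ∈ Aset (δ l) f := by
          intro s hs
          obtain ⟨ε, hε, hsε⟩ := hFT hs
          obtain ⟨l, hl⟩ := exists_nat_one_div_lt hε
          exact ⟨l, Aset_mono (le_of_lt hl) f hsε⟩
        choose! L hL using h1
        refine ⟨F.sup L, fun s hs => ?_⟩
        refine Aset_mono ?_ f (hL s hs)
        have : (L s : ℝ) ≤ (F.sup L : ℕ) := by exact_mod_cast Finset.le_sup (f := L) hs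
        simp only [δ]
        gcongr
      set A : Finset S := (finite_Aset (hδ l) f).toFinset with hA
      have hAeq : (A : Set S) = Aset (δ l) f := by rw [hA]; simp
      have hFA : (F : Set S) ⊆ A := by rw [hAeq]; exact hl
      obtain ⟨q, hq⟩ := approx f A n (half_pos (hδ i)) (fun x y hxy =>
        hF x y ⟨hxy.1, fun s hs => hxy.2 s (hFA hs)⟩)
      obtain ⟨j, hj⟩ := hg A n q
      have hdist : dist f (g A j) ≤ δ i := by
        rw [hj]
        refine hq.trans (le_of_eq ?_)
        ring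
      have hAD : A ∈ D i A.card j := by
        refine ⟨rfl, fun h hh => hball ?_⟩
        rw [Metric.mem_closedBall] at hh
        rw [Metric.mem_ball]
        calc dist h f ≤ dist h (g A j) + dist (g A j) f := dist_triangle _ _ _
          _ ≤ δ i + δ i := by rw [dist_comm (g A j) f]; exact add_le_add hh hdist
          _ < r := by linarith
      simp only [mem_iUnion]
      refine ⟨i, l, A.card, j, ?_, ?_⟩
      · simp only [O1, mem_iUnion]
        exact ⟨A, hAD, hAeq.le⟩
      · rintro (h | h)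
        · simp only [N, mem_iUnion, mem_ofPred_eq] at h
          obtain ⟨B, hB, hBf⟩ := h
          have hBA : B ⊆ A := by
            rw [← Finset.coe_subset, hAeq]; exact hBf
          have := Finset.card_le_card hBA
          omega
        · simp only [O2, mem_iUnion, mem_inter_iff, mem_ofPred_eq] at h
          obtain ⟨B, hB, hBf, hBc⟩ := h
          have hBA : B ⊆ A := by
            rw [← Finset.coe_subset, hAeq]; exact hBf
          have hBA' : B = A := Finset.eq_of_subset_of_card_le hBA (le_of_eq hB.1.symm)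
          rw [hBA'] at hBc
          exact hBc (Metric.mem_closedBall.2 hdist)
    · intro f hf
      simp only [mem_iUnion] at hf
      obtain ⟨i, l, m, j, h1, h2⟩ := hf
      simp only [O1, mem_iUnion] at h1
      obtain ⟨A, hAD, hAf⟩ := h1
      refine hAD.2 ?_
      by_contra hno
      refine h2 (Or.inr ?_)
      simp only [O2, mem_iUnion]
      exact ⟨A, hAD, hAf, hno⟩
  rw [hUeq]
  refine MeasurableSet.iUnion fun i => MeasurableSet.iUnion fun l =>
    MeasurableSet.iUnion fun m => MeasurableSet.iUnion fun j => ?_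
  exact (hO1 i l m j).diff ((hN l m).union (hO2 i l m j))

/-- The negative answer. -/
theorem answer : ¬ (∀ (K : Type) [TopologicalSpace K] [CompactSpace K] [T2Space K],
      @borel C(K, ℝ)
          (TopologicalSpace.induced
            (fun f : C(K, ℝ) => fun φ : C(K, ℝ) →L[ℝ] ℝ => φ f) inferInstance)
          = borel C(K, ℝ) →
      @borel C(K, ℝ)
          (TopologicalSpace.induced (fun f : C(K, ℝ) => (⇑f : K → ℝ)) inferInstance)
          = borel C(K, ℝ)) := by
  intro h
  exact pointwise_ne (h K weak_eq)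

end Pool.Agent.MP93d788
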