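import Pool.Agent.Work.MP_93d788_an.NotP

/-!
# MP_93d788_an: dependence on coordinates, measurability and functionals
-/

set_option autoImplicit false

namespace Pool.Agent.MP93d788

open MeasureTheory Set
open scoped Topology ENNReal

/-- closeness of two points -/
def Close (n : ℕ) (F : Set S) (x y : K) : Prop :=
  (∀ i < n, x.1.1 i = y.1.1 i) ∧ ∀ s ∈ F, x.1.2 s = y.1.2 s

lemma continuous_fst_apply (i : ℕ) : Continuous fun x : K => x.1.1 i :=
  (continuous_apply i).comp (continuous_fst.comp continuous_subtype_val)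

lemma continuous_snd_apply (s : S) : Continuous fun x : K => x.1.2 s :=
  (continuous_apply s).comp (continuous_snd.comp continuous_subtype_val)

lemma isClosed_close (n : ℕ) (F : Set S) : IsClosed {p : K × K | Close n F p.1 p.2} := by
  have : {p : K × K | Close n F p.1 p.2} =
      (⋂ i, ⋂ (_ : i < n), {p : K × K | p.1.1.1 i = p.2.1.1 i}) ∩
        (⋂ s, ⋂ (_ : s ∈ F), {p : K × K | p.1.1.2 s = p.2.1.2 s}) := by
    ext p; simp [Close]
  rw [this]
  refine IsClosed.inter ?_ ?_
  · refine isClosed_iInter fun i => isClosed_iInter fun _ => isClosed_eq ?_ ?_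
    · exact (continuous_fst_apply i).comp continuous_fst
    · exact (continuous_fst_apply i).comp continuous_snd
  · refine isClosed_iInter fun i => isClosed_iInter fun _ => isClosed_eq ?_ ?_
    · exact (continuous_snd_apply i).comp continuous_fst
    · exact (continuous_snd_apply i).comp continuous_snd

/-- a continuous function which depends on the coordinates in `T` depends up to `δ` on finitely
many of them -/
lemma unif_dep (f : C(K, ℝ)) (T : Set S)
    (hT : ∀ x y : K, x.1.1 = y.1.1 → (∀ s ∈ T, x.1.2 s = y.1.2 s) → f x = f y)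
    {δ : ℝ} (hδ : 0 < δ) :
    ∃ n : ℕ, ∃ F : Finset S, ↑F ⊆ T ∧ ∀ x y, Close n ↑F x y → |f x - f y| < δ := by
  classical
  by_contra hno
  push Not at hno
  let ι := ℕ × {F : Finset S // (F : Set S) ⊆ T}
  let t : ι → Set (K × K) := fun i =>
    {p | Close i.1 ↑i.2.1 p.1 p.2} ∩ {p | δ ≤ |f p.1 - f p.2|}
  have : Nonempty ι := ⟨(0, ⟨∅, by simp⟩)⟩
  have hcl : ∀ i, IsClosed (t i) := by
    intro i
    refine (isClosed_close _ _).inter ?_
    refine isClosed_le continuous_const ?_
    exact ((f.continuous.comp continuous_fst).sub (f.continuous.comp continuous_snd)).abs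
  have hdir : Directed (fun a b => b ⊆ a) t := by
    rintro ⟨n, F⟩ ⟨m, G⟩
    refine ⟨(max n m, ⟨F.1 ∪ G.1, by
      rw [Finset.coe_union]; exact union_subset F.2 G.2⟩), ?_, ?_⟩
    · rintro p ⟨⟨h1, h2⟩, h3⟩
      exact ⟨⟨fun i hi => h1 i (lt_of_lt_of_le hi (le_max_left _ _)),
        fun s hs => h2 s (by simp only [Finset.coe_union]; exact Or.inl hs)⟩, h3⟩
    · rintro p ⟨⟨h1, h2⟩, h3⟩
      exact ⟨⟨fun i hi => h1 i (lt_of_lt_of_le hi (le_max_right _ _)),
        fun s hs => h2 s (by simp only [Finset.coe_union]; exact Or.inr hs)⟩, h3⟩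
  have hne : ∀ i, (t i).Nonempty := by
    rintro ⟨n, F⟩
    obtain ⟨x, y, hxy, h⟩ := hno n F.1 F.2
    exact ⟨(x, y), hxy, h⟩
  obtain ⟨p, hp⟩ := IsCompact.nonempty_iInter_of_directed_nonempty_isCompact_isClosed t
    hdir hne (fun i => (hcl i).isCompact) hcl
  rw [mem_iInter] at hp
  have h1 : p.1.1.1 = p.2.1.1 := by
    funext i
    exact (hp (i + 1, ⟨∅, by simp⟩)).1.1 i (Nat.lt_succ_self i)
  have h2 : ∀ s ∈ T, p.1.1.2 s = p.2.1.2 s := by
    intro s hs
    exact (hp (0, ⟨{s}, by simpa using hs⟩)).1.2 s (by simp)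
  have h3 : δ ≤ |f p.1 - f p.2| := (hp (0, ⟨∅, by simp⟩)).2
  rw [hT p.1 p.2 h1 h2, sub_self, abs_zero] at h3
  linarith

lemma measurableSet_first (P : (k : ℕ) → Fin k → Z) (k : ℕ) : MeasurableSet (first P k) :=
  (isClopen_first P k).isOpen.measurableSet

lemma measurableSet_phi_mem (t : S) (A : Set S) : MeasurableSet {z : Z | phi z t ∈ A} := by
  induction t with
  | root =>
    have : {z : Z | phi z S.root ∈ A} = {_z : Z | S.root ∈ A} := by
      ext z; simp [phi]
    rw [this]
    exact MeasurableSet.const _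
  | glue b f P ih =>
    have : {z : Z | phi z (S.glue b f P) ∈ A} =
        (CC (S.glue b f P) ∩ {_z : Z | S.glue b f P ∈ A}) ∪
          ⋃ k, (first P k ∩ {z : Z | phi z (f k) ∈ A}) := by
      ext z
      simp only [mem_ofPred_eq, mem_union, mem_inter_iff, mem_iUnion]
      constructor
      · intro h
        rcases mem_or_first z b f P with hz | ⟨k, hk⟩
        · left
          rw [phi_of_mem hz] at h
          exact ⟨hz, h⟩
        · right
          rw [phi_of_first hk] at h
          exact ⟨k, hk, h⟩
      · rintro (⟨hz, h⟩ | ⟨k, hk, h⟩)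
        · rw [phi_of_mem hz]; exact h
        · rw [phi_of_first hk]; exact h
    rw [this]
    exact ((measurableSet_CC _).inter (MeasurableSet.const _)).union
      (MeasurableSet.iUnion fun k => (measurableSet_first P k).inter (ih k))

lemma measurable_e_phi (e : S → Bool) (t : S) : Measurable fun z : Z => e (phi z t) := by
  refine measurable_to_bool ?_
  exact measurableSet_phi_mem t {s | e s = true}

/-- continuous functions on `K` are measurable along the sections `gam e` -/
lemma measurable_gam (f : C(K, ℝ)) (e : S → Bool) : Measurable fun z : Z => f (gam e z) := by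
  classical
  have h : ∀ m : ℕ, ∃ g : Z → ℝ, Measurable g ∧
      ∀ z, |f (gam e z) - g z| < 1 / ((m : ℝ) + 1) := by
    intro m
    obtain ⟨n, F, -, hF⟩ := unif_dep f univ (fun x y h1 h2 => by
      have : x = y := by
        apply Subtype.ext
        exact Prod.ext h1 (funext fun s => h2 s (mem_univ s))
      rw [this]) (δ := 1 / ((m : ℝ) + 1)) (by positivity)
    let q : Z → (Fin n → Bool) × (F → Bool) := fun z => (fun i => z i, fun t => e (phi z t))
    have hq : Measurable q := by
      refine Measurable.prodMk ?_ ?_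
      · exact measurable_pi_lambda _ fun i => measurable_pi_apply _
      · exact measurable_pi_lambda _ fun t => measurable_e_phi e t
    let G : (Fin n → Bool) × (F → Bool) → ℝ := fun c =>
      if h : ∃ z, q z = c then f (gam e h.choose) else 0
    refine ⟨fun z => G (q z), (measurable_of_countable G).comp hq, ?_⟩
    intro z
    have hz : ∃ z', q z' = q z := ⟨z, rfl⟩
    have hG : G (q z) = f (gam e hz.choose) := by
      simp only [G]
      rw [dif_pos hz]
    change |f (gam e z) - G (q z)| < _
    rw [hG]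
    refine hF _ _ ?_
    have hs := hz.choose_spec
    set z' := hz.choose with hz'
    have h1 : ∀ i : Fin n, z' i = z i := fun i => congrFun (congrArg Prod.fst hs) i
    have h2 : ∀ t : F, e (phi z' t) = e (phi z t) := fun t => congrFun (congrArg Prod.snd hs) t
    exact ⟨fun i hi => (h1 ⟨i, hi⟩).symm, fun t ht => (h2 ⟨t, ht⟩).symm⟩
  choose g hg hfg using h
  refine measurable_of_tendsto_metrizable hg ?_
  rw [tendsto_pi_nhds]
  intro z
  rw [Metric.tendsto_atTop]
  intro δ hδ
  obtain ⟨N, hN⟩ := exists_nat_one_div_lt hδ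
  refine ⟨N, fun m hm => ?_⟩
  rw [Real.dist_eq, abs_sub_comm]
  refine (hfg m z).trans_le (le_trans ?_ hN.le)
  have : (N : ℝ) ≤ m := by exact_mod_cast hm
  gcongr

lemma integrableOn_gam (f : C(K, ℝ)) (e : S → Bool) (E : Set Z) :
    IntegrableOn (fun z : Z => f (gam e z)) E nu := by
  refine Integrable.of_bound (measurable_gam f e).aestronglyMeasurable ‖f‖ ?_
  exact Filter.Eventually.of_forall fun z => f.norm_coe_le_norm _

/-- integration along a section -/
noncomputable def Lam (e : S → Bool) (E : Set Z) : C(K, ℝ) →L[ℝ] ℝ :=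
  LinearMap.mkContinuous
    { toFun := fun f => ∫ z in E, f (gam e z) ∂nu
      map_add' := fun f g => by
        simp only [ContinuousMap.add_apply]
        exact integral_add (integrableOn_gam f e E) (integrableOn_gam g e E)
      map_smul' := fun c f => by
        simp only [ContinuousMap.smul_apply, RingHom.id_apply]
        exact integral_smul _ _ } 1 (by
    intro f
    rw [one_mul]
    have h1 : ‖∫ z in E, f (gam e z) ∂nu‖ ≤ ‖f‖ * nu.real E := by
      refine norm_setIntegral_le_of_norm_le_const (measure_lt_top _ _) ?_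
      exact fun z _ => f.norm_coe_le_norm _
    have h2 : nu.real E ≤ 1 := measureReal_le_one
    calc ‖∫ z in E, f (gam e z) ∂nu‖ ≤ ‖f‖ * nu.real E := h1
      _ ≤ ‖f‖ * 1 := by gcongr
      _ = ‖f‖ := mul_one _)

lemma Lam_apply (e : S → Bool) (E : Set Z) (f : C(K, ℝ)) :
    Lam e E f = ∫ z in E, f (gam e z) ∂nu := rfl

end Pool.Agent.MP93d788
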