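import Pool.Agent.Work.MP_93d788_an.Space

/-!
# MP_93d788_an: the measure on the Cantor space and self-supporting intersections
-/

set_option autoImplicit false

namespace Pool.Agent.MP93d788

open MeasureTheory Set
open scoped ENNReal

/-- the fair coin -/
noncomputable def coin : Measure Bool := (2 : ℝ≥0∞)⁻¹ • Measure.count

instance : IsProbabilityMeasure coin := by
  constructor
  rw [coin, Measure.smul_apply, Measure.count_univ]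
  simp only [ENat.card_eq_coe_fintype_card, Fintype.card_bool, smul_eq_mul]
  norm_num
  exact ENNReal.inv_mul_cancel (by norm_num) (by norm_num)

lemma coin_singleton (b : Bool) : coin {b} = 2⁻¹ := by
  rw [coin, Measure.smul_apply, Measure.count_singleton]
  simp

/-- the fair coin measure on the Cantor space -/
noncomputable def nu : Measure Z := Measure.infinitePi fun _ : ℕ => coin

instance : IsProbabilityMeasure nu := by unfold nu; infer_instance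

lemma nu_cyl (z : Z) (n : ℕ) : nu (cyl z n) = (2⁻¹ : ℝ≥0∞) ^ n := by
  have : cyl z n = Set.pi (Finset.range n : Set ℕ) (fun i => {z i}) := by
    ext y; simp [cyl, Set.pi]
  rw [this, nu, Measure.infinitePi_pi]
  · simp [coin_singleton]
  · intro i _; exact measurableSet_singleton _

lemma measurableSet_blk (k : ℕ) (p : Fin k → Z) : MeasurableSet (blk k p) :=
  (isClopen_blk k p).isOpen.measurableSet

lemma nu_blk_le (k : ℕ) (p : Fin k → Z) : nu (blk k p) ≤ k * (2⁻¹ : ℝ≥0∞) ^ (ell k) := by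
  have : blk k p = ⋃ j ∈ (Finset.univ : Finset (Fin k)), cyl (p j) (ell k) := by
    ext y; simp [blk]
  rw [this]
  refine (measure_biUnion_finset_le _ _).trans ?_
  simp [nu_cyl]

lemma ell_gap {i k : ℕ} (h : i < k) : ell i + i + (2 * k + 3) ≤ ell k := by
  unfold ell
  obtain ⟨j, rfl⟩ := Nat.exists_eq_add_of_lt h
  nlinarith [Nat.zero_le i, Nat.zero_le j, Nat.zero_le (i*j), Nat.zero_le (j*j)]

lemma blk_bound {i k : ℕ} (h : i < k) :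
    (k : ℝ≥0∞) * (2⁻¹ : ℝ≥0∞) ^ (ell k) ≤ (2⁻¹ : ℝ≥0∞) ^ (ell i + i) * (2⁻¹ : ℝ≥0∞) ^ (k + 3) := by
  have h1 : (2⁻¹ : ℝ≥0∞) ^ (ell k) ≤ (2⁻¹ : ℝ≥0∞) ^ (ell i + i + (2 * k + 3)) :=
    pow_le_pow_of_le_one (by simp) (by simp) (ell_gap h)
  have h2 : (k : ℝ≥0∞) * (2⁻¹ : ℝ≥0∞) ^ k ≤ 1 := by
    have h3 : (k : ℝ≥0∞) ≤ 2 ^ k := by
      exact_mod_cast (Nat.lt_two_pow_self (n := k)).le
    calc (k : ℝ≥0∞) * (2⁻¹ : ℝ≥0∞) ^ k ≤ 2 ^ k * (2⁻¹ : ℝ≥0∞) ^ k := by gcongr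
      _ = (2 * 2⁻¹) ^ k := (mul_pow _ _ _).symm
      _ = 1 := by rw [ENNReal.mul_inv_cancel (by norm_num) (by norm_num), one_pow]
  calc (k : ℝ≥0∞) * (2⁻¹ : ℝ≥0∞) ^ (ell k)
      ≤ (k : ℝ≥0∞) * (2⁻¹ : ℝ≥0∞) ^ (ell i + i + (2 * k + 3)) := by gcongr
    _ = (k * (2⁻¹ : ℝ≥0∞) ^ k) * ((2⁻¹ : ℝ≥0∞) ^ (ell i + i) * (2⁻¹ : ℝ≥0∞) ^ (k + 3)) := by
        rw [show ell i + i + (2 * k + 3) = k + ((ell i + i) + (k + 3)) by ring]
        rw [pow_add (2⁻¹ : ℝ≥0∞) k, pow_add (2⁻¹ : ℝ≥0∞) (ell i + i)]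
        ring
    _ ≤ 1 * ((2⁻¹ : ℝ≥0∞) ^ (ell i + i) * (2⁻¹ : ℝ≥0∞) ^ (k + 3)) := by gcongr
    _ = _ := one_mul _

lemma measurableSet_CC (t : S) : MeasurableSet (CC t) := (isClosed_CC t).measurableSet

lemma mem_cyl_self (z : Z) (n : ℕ) : z ∈ cyl z n := fun _ _ => rfl

/-- near a point of `CC t` the complement of `CC t` is relatively small at the scales `ell i` -/
lemma nu_compl_le (t : S) (z : Z) (i : ℕ) (hz : 0 < i → z ∈ CC t) :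
    nu (cyl z (ell i) \ CC t) ≤ (2⁻¹ : ℝ≥0∞) ^ (ell i + i) * (2⁻¹ : ℝ≥0∞) ^ 2 := by
  cases t with
  | root => simp [CC]
  | glue b f P =>
    have hsub : cyl z (ell i) \ CC (S.glue b f P) ⊆
        ⋃ k, (if i < k then blk k (P k) else ∅) := by
      rintro y ⟨hy, hyC⟩
      simp only [CC, mem_ofPred_eq, not_forall, not_not] at hyC
      obtain ⟨k, hk⟩ := hyC
      refine mem_iUnion.2 ⟨k, ?_⟩
      have hik : i < k := by
        by_contra hle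
        push Not at hle
        obtain ⟨j, hj⟩ := hk
        have hk0 : 0 < k := lt_of_le_of_lt (Nat.zero_le _) j.2
        refine hz (lt_of_lt_of_le hk0 hle) k ⟨j, ?_⟩
        intro m hm
        have hmi : m < ell i := by
          refine lt_of_lt_of_le hm ?_
          unfold ell
          gcongr
        rw [← hj m hm, hy m hmi]
      rw [if_pos hik]
      exact hk
    refine (measure_mono hsub).trans ((measure_iUnion_le _).trans ?_)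
    have hterm : ∀ k : ℕ, nu (if i < k then blk k (P k) else ∅) ≤
        (2⁻¹ : ℝ≥0∞) ^ (ell i + i) * ((2⁻¹ : ℝ≥0∞) ^ 3 * (2⁻¹ : ℝ≥0∞) ^ k) := by
      intro k
      by_cases hik : i < k
      · rw [if_pos hik]
        refine (nu_blk_le k (P k)).trans ((blk_bound hik).trans (le_of_eq ?_))
        ring
      · rw [if_neg hik]; simp
    refine (ENNReal.tsum_le_tsum hterm).trans (le_of_eq ?_)
    rw [ENNReal.tsum_mul_left, ENNReal.tsum_mul_left, ENNReal.tsum_geometric]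
    have : (1 - (2⁻¹ : ℝ≥0∞))⁻¹ = 2 := by
      rw [ENNReal.one_sub_inv_two, inv_inv]
    rw [this]
    congr 1
    rw [pow_succ (2⁻¹ : ℝ≥0∞) 2, mul_assoc, ENNReal.inv_mul_cancel (by norm_num) (by norm_num),
      mul_one]

/-- **Self-supporting intersections.** -/
lemma pos_of_mem (R : Finset S) (z : Z) (hz : ∀ r ∈ R, z ∈ CC r) (w : Set Z) (hw : IsOpen w)
    (hzw : z ∈ w) : 0 < nu (w ∩ ⋂ r ∈ R, CC r) := by
  -- the cylinders form a neighbourhood base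
  obtain ⟨n, hn⟩ : ∃ n, cyl z n ⊆ w := by
    obtain ⟨I, u, hu, hIu⟩ := isOpen_pi_iff.1 hw z hzw
    refine ⟨I.sup id + 1, ?_⟩
    intro y hy
    refine hIu ?_
    intro i hi
    have : y i = z i := hy i (Nat.lt_succ_of_le (Finset.le_sup (f := id) hi))
    rw [this]
    exact (hu i hi).2
  obtain ⟨i, hni, hRi⟩ : ∃ i, n ≤ ell i ∧ R.card < 2 ^ i := by
    refine ⟨n + R.card, ?_, ?_⟩
    · unfold ell
      nlinarith [Nat.zero_le n, Nat.zero_le R.card, Nat.zero_le (n * R.card)]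
    · exact lt_of_lt_of_le (Nat.lt_two_pow_self)
        (Nat.pow_le_pow_right (by norm_num) (Nat.le_add_left _ _))
  have hcw : cyl z (ell i) ⊆ w := fun y hy => hn fun j hj => hy j (lt_of_lt_of_le hj hni)
  have hsub : cyl z (ell i) ⊆ (w ∩ ⋂ r ∈ R, CC r) ∪ ⋃ r ∈ R, (cyl z (ell i) \ CC r) := by
    intro y hy
    by_cases h : ∀ r ∈ R, y ∈ CC r
    · exact Or.inl ⟨hcw hy, by simpa using h⟩
    · push Not at h
      obtain ⟨r, hr, hyr⟩ := h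
      refine Or.inr ?_
      simp only [mem_iUnion]
      exact ⟨r, hr, hy, hyr⟩
  by_contra hpos
  have h0 : nu (w ∩ ⋂ r ∈ R, CC r) = 0 := by simpa using hpos
  have h1 : (2⁻¹ : ℝ≥0∞) ^ (ell i) ≤ R.card * ((2⁻¹ : ℝ≥0∞) ^ (ell i + i) * (2⁻¹ : ℝ≥0∞) ^ 2) := by
    calc (2⁻¹ : ℝ≥0∞) ^ (ell i) = nu (cyl z (ell i)) := (nu_cyl _ _).symm
      _ ≤ nu ((w ∩ ⋂ r ∈ R, CC r) ∪ ⋃ r ∈ R, (cyl z (ell i) \ CC r)) := measure_mono hsub
      _ ≤ nu (w ∩ ⋂ r ∈ R, CC r) + nu (⋃ r ∈ R, (cyl z (ell i) \ CC r)) := measure_union_le _ _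
      _ ≤ 0 + ∑ r ∈ R, nu (cyl z (ell i) \ CC r) := by
          gcongr
          · exact h0.le
          · exact measure_biUnion_finset_le _ _
      _ ≤ 0 + ∑ _r ∈ R, ((2⁻¹ : ℝ≥0∞) ^ (ell i + i) * (2⁻¹ : ℝ≥0∞) ^ 2) := by
          gcongr with r hr
          exact nu_compl_le r z i (fun _ => hz r hr)
      _ = _ := by rw [Finset.sum_const, nsmul_eq_mul, zero_add]
  have h2 : (R.card : ℝ≥0∞) * (2⁻¹ : ℝ≥0∞) ^ i ≤ 1 := by
    calc (R.card : ℝ≥0∞) * (2⁻¹ : ℝ≥0∞) ^ i ≤ 2 ^ i * (2⁻¹ : ℝ≥0∞) ^ i := by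
          gcongr
          exact_mod_cast hRi.le
      _ = (2 * 2⁻¹) ^ i := (mul_pow _ _ _).symm
      _ = 1 := by rw [ENNReal.mul_inv_cancel (by norm_num) (by norm_num), one_pow]
  have h3 : (2⁻¹ : ℝ≥0∞) ^ (ell i) ≤ (2⁻¹ : ℝ≥0∞) ^ (ell i) * (2⁻¹ : ℝ≥0∞) ^ 2 := by
    calc (2⁻¹ : ℝ≥0∞) ^ (ell i) ≤ R.card * ((2⁻¹ : ℝ≥0∞) ^ (ell i + i) * (2⁻¹ : ℝ≥0∞) ^ 2) := h1
      _ = (R.card * (2⁻¹ : ℝ≥0∞) ^ i) * ((2⁻¹ : ℝ≥0∞) ^ (ell i) * (2⁻¹ : ℝ≥0∞) ^ 2) := by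
          rw [pow_add]; ring
      _ ≤ 1 * ((2⁻¹ : ℝ≥0∞) ^ (ell i) * (2⁻¹ : ℝ≥0∞) ^ 2) := by gcongr
      _ = _ := one_mul _
  have h4 : (2⁻¹ : ℝ≥0∞) ^ (ell i) * (2⁻¹ : ℝ≥0∞) ^ 2 < (2⁻¹ : ℝ≥0∞) ^ (ell i) := by
    have h5 : (2⁻¹ : ℝ≥0∞) ^ 2 < 1 := by
      exact pow_lt_one₀ (by simp) (by simp) (by norm_num)
    calc (2⁻¹ : ℝ≥0∞) ^ (ell i) * (2⁻¹ : ℝ≥0∞) ^ 2 < (2⁻¹ : ℝ≥0∞) ^ (ell i) * 1 := by
          refine ENNReal.mul_lt_mul_right ?_ ?_ h5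
          · simp
          · simp
      _ = _ := mul_one _
  exact absurd h3 (not_le.2 h4)

lemma nu_compl_CC_le (t : S) : nu (CC t)ᶜ ≤ 4⁻¹ := by
  have h := nu_compl_le t (fun _ => false) 0 (fun h => absurd h (lt_irrefl _))
  have hcyl : cyl (fun _ => false) (ell 0) = univ := by
    ext y; simp [cyl, ell]
  rw [hcyl, ← compl_eq_univ_sdiff] at h
  refine h.trans (le_of_eq ?_)
  simp only [ell, zero_mul, add_zero, pow_zero, one_mul]
  rw [← ENNReal.inv_pow]; norm_num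

/-- two sets `CC s`, `CC t` meet -/
lemma exists_common (s t : S) : ∃ z, z ∈ CC s ∧ z ∈ CC t := by
  by_contra hno
  push Not at hno
  have hsub : (univ : Set Z) ⊆ (CC s)ᶜ ∪ (CC t)ᶜ := by
    intro z _
    by_cases h : z ∈ CC s
    · exact Or.inr (hno z h)
    · exact Or.inl h
  have h1 : (1 : ℝ≥0∞) ≤ 4⁻¹ + 4⁻¹ := by
    calc (1 : ℝ≥0∞) = nu univ := measure_univ.symm
      _ ≤ nu ((CC s)ᶜ ∪ (CC t)ᶜ) := measure_mono hsub
      _ ≤ nu (CC s)ᶜ + nu (CC t)ᶜ := measure_union_le _ _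
      _ ≤ 4⁻¹ + 4⁻¹ := add_le_add (nu_compl_CC_le s) (nu_compl_CC_le t)
  have h2 : (4⁻¹ : ℝ≥0∞) + 4⁻¹ < 1 := by
    rw [← two_mul]
    have : (4⁻¹ : ℝ≥0∞) < 2⁻¹ := ENNReal.inv_lt_inv.2 (by norm_num)
    calc (2 : ℝ≥0∞) * 4⁻¹ < 2 * 2⁻¹ := ENNReal.mul_lt_mul_right (by norm_num) (by norm_num) this
      _ = 1 := ENNReal.mul_inv_cancel (by norm_num) (by norm_num)
  exact absurd h1 (not_le.2 h2)

end Pool.Agent.MP93d788
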