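import Pool.Agent.Work.MP_93d788_an.Meas

/-!
# MP_93d788_an: the pointwise Borel sets of `C(K)` are too few
-/

set_option autoImplicit false

namespace Pool.Agent.MP93d788

open MeasureTheory Set
open scoped Topology

/-- the coordinate functions on `K` -/
def xf (t : S) : C(K, ℝ) where
  toFun x := if x.1.2 t then 1 else 0
  continuous_toFun := by
    have h : Continuous fun b : Bool => (if b then (1 : ℝ) else 0) :=
      continuous_of_discreteTopology
    exact h.comp ((continuous_apply t).comp (continuous_snd.comp continuous_subtype_val))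

lemma xf_apply (t : S) (x : K) : xf t x = if x.1.2 t then 1 else 0 := rfl

/-- the topology of pointwise convergence -/
abbrev tp : TopologicalSpace C(K, ℝ) :=
  TopologicalSpace.induced (fun f : C(K, ℝ) => (⇑f : K → ℝ)) inferInstance

lemma exists_finset_of_isOpen {G : Set C(K, ℝ)} (hG : IsOpen[tp] G) {f : C(K, ℝ)}
    (hf : f ∈ G) : ∃ F : Finset K, ∀ g : C(K, ℝ), (∀ x ∈ F, g x = f x) → g ∈ G := by
  obtain ⟨V, hV, rfl⟩ := isOpen_induced_iff.1 hG
  obtain ⟨I, u, hu, hIu⟩ := isOpen_pi_iff.1 hV _ hf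
  refine ⟨I, fun g hg => hIu ?_⟩
  intro x hx
  change g x ∈ u x
  rw [hg x hx]
  exact (hu x hx).2

/-- a pointwise Borel set is determined by countably many pointwise open sets -/
lemma dec {A : Set C(K, ℝ)} (hA : MeasurableSet[@borel C(K, ℝ) tp] A) :
    ∃ G : ℕ → Set C(K, ℝ), (∀ n, IsOpen[tp] (G n)) ∧
      ∀ f g : C(K, ℝ), (∀ n, f ∈ G n ↔ g ∈ G n) → (f ∈ A ↔ g ∈ A) := by
  refine MeasurableSpace.generateFrom_induction {s | IsOpen[tp] s}
    (fun A _ => ∃ G : ℕ → Set C(K, ℝ), (∀ n, IsOpen[tp] (G n)) ∧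
      ∀ f g : C(K, ℝ), (∀ n, f ∈ G n ↔ g ∈ G n) → (f ∈ A ↔ g ∈ A))
    ?_ ?_ ?_ ?_ A hA
  · intro t ht _
    exact ⟨fun _ => t, fun _ => ht, fun f g h => h 0⟩
  · exact ⟨fun _ => ∅, fun _ => @isOpen_empty _ tp, fun f g _ => by simp⟩
  · rintro t _ ⟨G, hG, h⟩
    exact ⟨G, hG, fun f g hfg => not_congr (h f g hfg)⟩
  · intro s _ hs
    choose G hG h using hs
    refine ⟨fun n => G (Nat.unpair n).1 (Nat.unpair n).2, fun n => hG _ _, ?_⟩
    intro f g hfg
    have : ∀ i, f ∈ s i ↔ g ∈ s i := by
      intro i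
      refine h i f g fun n => ?_
      have := hfg (Nat.pair i n)
      simpa using this
    simp only [mem_iUnion, this]

/-- two coordinates agree over `H` -/
def Agree (H : Set Z) (s t : S) : Prop := ∀ x : K, x.1.1 ∈ H → x.1.2 s = x.1.2 t

/-- a good choice at level `k` -/
def Good (G : Set C(K, ℝ)) (k : ℕ) (s : S) (H : Set Z) (q : S × (Fin k → Z)) : Prop :=
  Agree H q.1 s ∧ ∀ t, Agree (H ∪ blk k q.2) t q.1 → xf t ∈ G

open Classical in
/-- the choice at level `k` -/
noncomputable def step (G : Set C(K, ℝ)) (k : ℕ) (s : S) (H : Set Z) : S × (Fin k → Z) :=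
  if h : ∃ q, Good G k s H q then h.choose else (s, fun _ _ => false)

lemma step_agree (G : Set C(K, ℝ)) (k : ℕ) (s : S) (H : Set Z) :
    Agree H (step G k s H).1 s := by
  unfold step
  split_ifs with h
  · exact h.choose_spec.1
  · intro x _; rfl

lemma step_good {G : Set C(K, ℝ)} {k : ℕ} {s : S} {H : Set Z} (h : ∃ q, Good G k s H q) :
    ∀ t, Agree (H ∪ blk k (step G k s H).2) t (step G k s H).1 → xf t ∈ G := by
  unfold step
  rw [dif_pos h]
  exact h.choose_spec.2

/-- the state before level `k` -/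
noncomputable def state (G : ℕ → Set C(K, ℝ)) : ℕ → S × Set Z
  | 0 => (S.root, ∅)
  | k + 1 =>
    ((step (G (Nat.unpair k).1) k (state G k).1 (state G k).2).1,
      (state G k).2 ∪ blk k (step (G (Nat.unpair k).1) k (state G k).1 (state G k).2).2)

/-- the elements chosen -/
noncomputable def sq (G : ℕ → Set C(K, ℝ)) (k : ℕ) : S :=
  (step (G (Nat.unpair k).1) k (state G k).1 (state G k).2).1

/-- the points chosen -/
noncomputable def pq (G : ℕ → Set C(K, ℝ)) (k : ℕ) : Fin k → Z :=
  (step (G (Nat.unpair k).1) k (state G k).1 (state G k).2).2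

/-- the two limits -/
noncomputable def lim (G : ℕ → Set C(K, ℝ)) (b : Bool) : S := S.glue b (sq G) (pq G)

lemma state_succ (G : ℕ → Set C(K, ℝ)) (k : ℕ) :
    state G (k + 1) = (sq G k, (state G k).2 ∪ blk k (pq G k)) := rfl

lemma blk_subset_state (G : ℕ → Set C(K, ℝ)) {i k : ℕ} (h : i < k) :
    blk i (pq G i) ⊆ (state G k).2 := by
  induction k with
  | zero => exact absurd h (Nat.not_lt_zero _)
  | succ k ih =>
    rw [state_succ]
    rcases Nat.lt_succ_iff_lt_or_eq.1 h with h | rfl
    · exact (ih h).trans subset_union_left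
    · exact subset_union_right

lemma lim_agree (G : ℕ → Set C(K, ℝ)) (b : Bool) (k : ℕ) :
    Agree (state G k).2 (lim G b) (state G k).1 := by
  induction k with
  | zero => intro x hx; exact absurd hx (notMem_empty _)
  | succ k ih =>
    intro x hx
    rw [state_succ] at hx ⊢
    by_cases h : x.1.1 ∈ (state G k).2
    · rw [ih x h]
      exact (step_agree (G (Nat.unpair k).1) k (state G k).1 (state G k).2 x h).symm
    · have hk : x.1.1 ∈ blk k (pq G k) := hx.resolve_left h
      exact x.2 b (sq G) (pq G) k ⟨hk, fun i hi hxi => h (blk_subset_state G hi hxi)⟩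

lemma lim_mem (G : ℕ → Set C(K, ℝ)) (hG : ∀ n, IsOpen[tp] (G n)) (b b' : Bool) (n : ℕ)
    (h : xf (lim G b) ∈ G n) : xf (lim G b') ∈ G n := by
  obtain ⟨F, hF⟩ := exists_finset_of_isOpen (hG n) h
  set k := Nat.pair n F.card with hk
  have hn : (Nat.unpair k).1 = n := by simp [hk]
  have hFk : F.card ≤ k := Nat.right_le_pair _ _
  have hgood : ∃ q, Good (G (Nat.unpair k).1) k (state G k).1 (state G k).2 q := by
    refine ⟨(lim G b, fun j => if h : (j : ℕ) < F.card then (F.equivFin.symm ⟨j, h⟩).1.1.1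
      else fun _ => false), lim_agree G b k, ?_⟩
    intro t ht
    rw [hn]
    refine hF _ ?_
    intro x hx
    have hxb : x.1.1 ∈ blk k (fun j => if h : (j : ℕ) < F.card then
        (F.equivFin.symm ⟨j, h⟩).1.1.1 else fun _ => false) := by
      refine ⟨⟨F.equivFin ⟨x, hx⟩, lt_of_lt_of_le (F.equivFin ⟨x, hx⟩).2 hFk⟩, ?_⟩
      intro i _
      simp
    rw [xf_apply, xf_apply, ht x (Or.inr hxb)]
  have h1 := step_good hgood (lim G b') (lim_agree G b' (k + 1))
  rwa [hn] at h1

/-- the label -/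
def lab : S → Bool
  | S.root => false
  | S.glue b _ _ => b

open Classical in
lemma eq_of_dist_lt {s t : S} (h : dist (xf s) (xf t) < 1) : s = t := by
  by_contra hst
  obtain ⟨z, hs, ht⟩ := exists_common s t
  set x : K := gam (fun r => decide (r = s)) z with hx
  have h1 : xf s x = 1 := by
    simp [xf_apply, hx, gam, phi_of_mem hs]
  have h2 : xf t x = 0 := by
    simp [xf_apply, hx, gam, phi_of_mem ht, Ne.symm hst]
  have h3 := ContinuousMap.dist_apply_le_dist (f := xf s) (g := xf t) x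
  rw [h1, h2] at h3
  simp at h3
  linarith

theorem pointwise_ne : @borel C(K, ℝ) tp ≠ borel C(K, ℝ) := by
  intro heq
  set U : Set C(K, ℝ) := ⋃ t ∈ {t : S | lab t = true}, Metric.ball (xf t) (1 / 3) with hU
  have hUo : IsOpen U := isOpen_biUnion fun t _ => Metric.isOpen_ball
  have hUm : MeasurableSet[@borel C(K, ℝ) tp] U := by
    rw [heq]
    exact MeasurableSpace.measurableSet_generateFrom hUo
  obtain ⟨G, hG, h⟩ := dec hUm
  have h1 : xf (lim G true) ∈ U := by
    rw [hU]
    simp only [mem_iUnion]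
    exact ⟨lim G true, rfl, Metric.mem_ball_self (by norm_num)⟩
  have h2 : xf (lim G false) ∈ U :=
    (h _ _ fun n => ⟨lim_mem G hG true false n, lim_mem G hG false true n⟩).1 h1
  rw [hU] at h2
  simp only [mem_iUnion] at h2
  obtain ⟨t, ht, hd⟩ := h2
  have : lim G false = t := by
    apply eq_of_dist_lt
    have := Metric.mem_ball.1 hd
    linarith
  rw [← this] at ht
  simp [lab, lim] at ht

end Pool.Agent.MP93d788
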