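import Mathlib

/-!
# MP_93d788_an: the compact space

`Z` is the Cantor space, `S` a type of well-founded trees, `KK` a closed subset of
`Z × (S → Bool)`.
-/

set_option autoImplicit false

namespace Pool.Agent.MP93d788

open MeasureTheory Set

/-- the Cantor space -/
abbrev Z := ℕ → Bool

/-- cylinder of length `n` around `z` -/
def cyl (z : Z) (n : ℕ) : Set Z := {y | ∀ i < n, y i = z i}

/-- the length of the cylinders used at level `k` -/
def ell (k : ℕ) : ℕ := k * (2 * k + 3)

/-- union of the cylinders around `k` points -/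
def blk (k : ℕ) (p : Fin k → Z) : Set Z := {y | ∃ j, y ∈ cyl (p j) (ell k)}

/-- the index set -/
inductive S : Type
  | root : S
  | glue (b : Bool) (f : ℕ → S) (P : (k : ℕ) → Fin k → Z) : S

/-- points of the block of level `k` in no earlier block -/
def first (P : (k : ℕ) → Fin k → Z) (k : ℕ) : Set Z :=
  {z | z ∈ blk k (P k) ∧ ∀ i < k, z ∉ blk i (P i)}

/-- the compact space, as a set -/
def KK : Set (Z × (S → Bool)) :=
  {x | ∀ (b : Bool) (f : ℕ → S) (P : (k : ℕ) → Fin k → Z) (k : ℕ),
    x.1 ∈ first P k → x.2 (S.glue b f P) = x.2 (f k)}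

/-- the compact space -/
abbrev K := ↥KK

lemma isClopen_cyl (z : Z) (n : ℕ) : IsClopen (cyl z n) := by
  have : cyl z n = ⋂ i ∈ Finset.range n, {y : Z | y i = z i} := by
    ext y; simp [cyl]
  rw [this]
  refine isClopen_biInter_finset fun i _ => ?_
  exact (isClopen_discrete {z i}).preimage (continuous_apply i)

lemma isClopen_blk (k : ℕ) (p : Fin k → Z) : IsClopen (blk k p) := by
  have : blk k p = ⋃ j ∈ (Finset.univ : Finset (Fin k)), cyl (p j) (ell k) := by
    ext y; simp [blk]
  rw [this]
  exact isClopen_biUnion_finset fun j _ => isClopen_cyl _ _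

lemma isClopen_first (P : (k : ℕ) → Fin k → Z) (k : ℕ) : IsClopen (first P k) := by
  have : first P k = blk k (P k) ∩ ⋂ i ∈ Finset.range k, (blk i (P i))ᶜ := by
    ext y; simp [first]
  rw [this]
  exact (isClopen_blk _ _).inter
    (isClopen_biInter_finset fun i _ => (isClopen_blk _ _).compl)

lemma isClosed_KK : IsClosed KK := by
  have : KK = ⋂ (b : Bool) (f : ℕ → S) (P : (k : ℕ) → Fin k → Z) (k : ℕ),
      ({x : Z × (S → Bool) | x.1 ∈ first P k}ᶜ ∪
        {x : Z × (S → Bool) | x.2 (S.glue b f P) = x.2 (f k)}) := by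
    ext x
    simp only [KK, mem_ofPred_eq, mem_iInter, mem_union, mem_compl_iff, imp_iff_not_or]
  rw [this]
  refine isClosed_iInter fun b => isClosed_iInter fun f => isClosed_iInter fun P =>
    isClosed_iInter fun k => IsClosed.union ?_ ?_
  · exact ((isClopen_first P k).preimage continuous_fst).compl.isClosed
  · refine isClosed_eq ?_ ?_
    · exact (continuous_apply _).comp continuous_snd
    · exact (continuous_apply _).comp continuous_snd

instance : CompactSpace K := isCompact_iff_compactSpace.1 isClosed_KK.isCompact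

/-- the complement of the union of all blocks -/
def CC : S → Set Z
  | S.root => univ
  | S.glue _ _ P => {z | ∀ k, z ∉ blk k (P k)}

lemma isClosed_CC (t : S) : IsClosed (CC t) := by
  cases t with
  | root => exact isClosed_univ
  | glue b f P =>
    have : CC (S.glue b f P) = ⋂ k, (blk k (P k))ᶜ := by
      ext z; simp [CC]
    rw [this]
    exact isClosed_iInter fun k => (isClopen_blk _ _).compl.isClosed

open Classical in
/-- the terminal of `t` over `z` -/
noncomputable def phi (z : Z) : S → S
  | S.root => S.root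
  | S.glue b f P =>
    if h : ∃ k, z ∈ blk k (P k) then phi z (f (Nat.find h)) else S.glue b f P

open Classical in
lemma phi_of_first {z : Z} {P : (k : ℕ) → Fin k → Z} {k : ℕ} (hz : z ∈ first P k)
    (b : Bool) (f : ℕ → S) : phi z (S.glue b f P) = phi z (f k) := by
  have h : ∃ k, z ∈ blk k (P k) := ⟨k, hz.1⟩
  have hk : Nat.find h = k := by
    rw [Nat.find_eq_iff]
    exact ⟨hz.1, fun i hi => hz.2 i hi⟩
  rw [phi, dif_pos h, hk]

open Classical in
lemma exists_first {z : Z} {P : (k : ℕ) → Fin k → Z} (h : ∃ k, z ∈ blk k (P k)) :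
    ∃ k, z ∈ first P k :=
  ⟨Nat.find h, Nat.find_spec h, fun _ hi => Nat.find_min h hi⟩

lemma phi_of_mem {z : Z} {t : S} (h : z ∈ CC t) : phi z t = t := by
  cases t with
  | root => simp [phi]
  | glue b f P =>
    have : ¬ ∃ k, z ∈ blk k (P k) := by
      rintro ⟨k, hk⟩
      exact h k hk
    rw [phi, dif_neg this]

lemma mem_or_first (z : Z) (b : Bool) (f : ℕ → S) (P : (k : ℕ) → Fin k → Z) :
    z ∈ CC (S.glue b f P) ∨ ∃ k, z ∈ first P k := by
  by_cases h : ∃ k, z ∈ blk k (P k)
  · exact Or.inr (exists_first h)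
  · left
    intro k hk
    exact h ⟨k, hk⟩

lemma mem_CC_phi (z : Z) (t : S) : z ∈ CC (phi z t) := by
  induction t with
  | root => simp [phi, CC]
  | glue b f P ih =>
    rcases mem_or_first z b f P with h | ⟨k, hk⟩
    · rw [phi_of_mem h]; exact h
    · rw [phi_of_first hk]; exact ih k

/-- the points of `K` over `z` -/
lemma mem_KK (z : Z) (e : S → Bool) : (z, fun t => e (phi z t)) ∈ KK := by
  intro b f P k hk
  simp only
  rw [phi_of_first hk]

/-- the point of `K` over `z` given by `e` -/
noncomputable def gam (e : S → Bool) (z : Z) : K := ⟨(z, fun t => e (phi z t)), mem_KK z e⟩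

lemma snd_eq_phi (x : K) (t : S) : x.1.2 t = x.1.2 (phi x.1.1 t) := by
  induction t with
  | root => simp [phi]
  | glue b f P ih =>
    rcases mem_or_first x.1.1 b f P with h | ⟨k, hk⟩
    · rw [phi_of_mem h]
    · rw [phi_of_first hk, ← ih k]
      exact x.2 b f P k hk

/-- near `z` the coordinate `t` equals the coordinate `phi z t` -/
lemma exists_nhd (z : Z) (t : S) :
    ∃ w : Set Z, IsOpen w ∧ z ∈ w ∧ ∀ x : K, x.1.1 ∈ w → x.1.2 t = x.1.2 (phi z t) := by
  induction t with
  | root => exact ⟨univ, isOpen_univ, mem_univ _, fun x _ => by simp [phi]⟩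
  | glue b f P ih =>
    rcases mem_or_first z b f P with h | ⟨k, hk⟩
    · exact ⟨univ, isOpen_univ, mem_univ _, fun x _ => by rw [phi_of_mem h]⟩
    · obtain ⟨w, hw, hzw, hx⟩ := ih k
      refine ⟨w ∩ first P k, hw.inter (isClopen_first P k).isOpen, ⟨hzw, hk⟩, ?_⟩
      intro x hxw
      rw [phi_of_first hk, ← hx x hxw.1]
      exact x.2 b f P k hxw.2

end Pool.Agent.MP93d788
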