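import Pool.Agent.Work.MP_93d788_an.Dep

/-!
# MP_93d788_an: the essential coordinates of a continuous function
-/

set_option autoImplicit false

namespace Pool.Agent.MP93d788

open MeasureTheory Set
open scoped Topology ENNReal

/-- the weak topology -/
abbrev tw : TopologicalSpace C(K, ℝ) :=
  TopologicalSpace.induced
    (fun f : C(K, ℝ) => fun φ : C(K, ℝ) →L[ℝ] ℝ => φ f) inferInstance

lemma continuous_tw (φ : C(K, ℝ) →L[ℝ] ℝ) :
    @Continuous _ _ tw _ fun f : C(K, ℝ) => φ f := by
  have h : @Continuous _ _ tw _ (fun f : C(K, ℝ) => fun φ : C(K, ℝ) →L[ℝ] ℝ => φ f) :=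
    continuous_induced_dom
  have h' : Continuous fun p : (C(K, ℝ) →L[ℝ] ℝ) → ℝ => p φ := continuous_apply φ
  exact @Continuous.comp _ _ _ tw _ _ _ (fun p : (C(K, ℝ) →L[ℝ] ℝ) → ℝ => p φ) h' h

/-- flipping one coordinate -/
noncomputable def flip (e : S → Bool) (s : S) : S → Bool := by
  classical exact Function.update e s (!e s)

lemma flip_ne {e : S → Bool} {s t : S} (h : t ≠ s) : flip e s t = e t := by
  classical
  simp [flip, h]

lemma flip_self (e : S → Bool) (s : S) : flip e s s = !e s := by
  classical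
  simp [flip]

/-- the `ε`-essential coordinates of `f` -/
def Aset (ε : ℝ) (f : C(K, ℝ)) : Set S :=
  {s | ∃ (e : S → Bool) (E : Set Z), MeasurableSet E ∧ E ⊆ CC s ∧
    ε < Lam e E f - Lam (flip e s) E f}

lemma Aset_mono {ε ε' : ℝ} (h : ε ≤ ε') (f : C(K, ℝ)) : Aset ε' f ⊆ Aset ε f := by
  rintro s ⟨e, E, hE, hEs, hs⟩
  exact ⟨e, E, hE, hEs, lt_of_le_of_lt h hs⟩

lemma isOpen_Aset (ε : ℝ) (s : S) : IsOpen[tw] {f : C(K, ℝ) | s ∈ Aset ε f} := by
  have : {f : C(K, ℝ) | s ∈ Aset ε f} =
      ⋃ (e : S → Bool), ⋃ (E : Set Z), ⋃ (_ : MeasurableSet E ∧ E ⊆ CC s),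
        {f : C(K, ℝ) | ε < Lam e E f - Lam (flip e s) E f} := by
    ext f
    simp only [Aset, mem_ofPred_eq, mem_iUnion, exists_prop, and_assoc]
  rw [this]
  refine @isOpen_iUnion _ _ tw _ fun e => @isOpen_iUnion _ _ tw _ fun E =>
    @isOpen_iUnion _ _ tw _ fun _ => ?_
  have hc : @Continuous _ _ tw _ fun f : C(K, ℝ) => (Lam e E - Lam (flip e s) E) f :=
    continuous_tw _
  exact @IsOpen.preimage _ _ tw _ _ hc (Ioi ε) isOpen_Ioi

/-- the weakly open set of functions for which all members of `A` are `ε`-essential -/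
lemma isOpen_subset_Aset (ε : ℝ) (A : Finset S) :
    IsOpen[tw] {f : C(K, ℝ) | (A : Set S) ⊆ Aset ε f} := by
  have : {f : C(K, ℝ) | (A : Set S) ⊆ Aset ε f} =
      ⋂ s ∈ A, {f : C(K, ℝ) | s ∈ Aset ε f} := by
    ext f
    simp only [mem_ofPred_eq, mem_iInter, subset_def, Finset.mem_coe]
  rw [this]
  exact @isOpen_biInter_finset _ _ tw _ _ fun s _ => isOpen_Aset ε s

/-- only finitely many coordinates are `ε`-essential -/
lemma finite_Aset {ε : ℝ} (hε : 0 < ε) (f : C(K, ℝ)) : (Aset ε f).Finite := by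
  classical
  obtain ⟨n, F, -, hF⟩ := unif_dep f univ (fun x y h1 h2 => by
      have : x = y := by
        apply Subtype.ext
        exact Prod.ext h1 (funext fun s => h2 s (mem_univ s))
      rw [this]) (δ := ε / 2) (by positivity)
  -- the sets of points over which the terminal of `t` is `s`
  let W : S → S → Set Z := fun t s => {z | phi z t ∈ ({s} : Set S)}
  have hWm : ∀ t s, MeasurableSet (W t s) := fun t s => measurableSet_phi_mem t {s}
  set c : ℝ := ε / (4 * (‖f‖ + 1) * (F.card + 1)) with hc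
  have hcpos : 0 < c := by positivity
  have hfin : ∀ t, {s | ENNReal.ofReal c ≤ nu (W t s)}.Finite := by
    intro t
    refine Measure.finite_const_le_meas_of_disjoint_iUnion nu (by simpa using hcpos)
      (fun s => hWm t s) ?_ (measure_ne_top _ _)
    intro s s' hss
    rw [Function.onFun, disjoint_left]
    intro z hz hz'
    exact hss (hz.symm.trans hz')
  refine (Set.Finite.biUnion F.finite_toSet fun t _ => hfin t).subset ?_
  rintro s ⟨e, E, hE, hEs, hs⟩
  by_contra hno
  simp only [mem_iUnion, mem_ofPred_eq, exists_prop, not_exists, not_and, not_le,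
    Finset.mem_coe] at hno
  have hpt : ∀ z ∈ E, f (gam e z) - f (gam (flip e s) z) ≤
      ε / 2 + ∑ t ∈ F, (W t s).indicator (fun _ => 2 * ‖f‖) z := by
    intro z _
    by_cases h : ∃ t ∈ F, z ∈ W t s
    · obtain ⟨t, ht, hz⟩ := h
      have h1 : f (gam e z) - f (gam (flip e s) z) ≤ 2 * ‖f‖ := by
        have := f.norm_coe_le_norm (gam e z)
        have := f.norm_coe_le_norm (gam (flip e s) z)
        rw [Real.norm_eq_abs, abs_le] at *
        linarith
      have h2 : 2 * ‖f‖ ≤ ∑ t ∈ F, (W t s).indicator (fun _ => 2 * ‖f‖) z := by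
        have h3 : (W t s).indicator (fun _ => 2 * ‖f‖) z = 2 * ‖f‖ := indicator_of_mem hz _
        calc 2 * ‖f‖ = (W t s).indicator (fun _ => 2 * ‖f‖) z := h3.symm
          _ ≤ _ := Finset.single_le_sum (f := fun t => (W t s).indicator (fun _ => 2 * ‖f‖) z)
              (fun t' _ => indicator_nonneg (fun _ _ => by positivity) _) ht
      linarith
    · push Not at h
      have h1 : |f (gam e z) - f (gam (flip e s) z)| < ε / 2 := by
        refine hF _ _ ⟨fun i _ => rfl, fun t ht => ?_⟩
        change e (phi z t) = flip e s (phi z t)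
        rw [flip_ne]
        exact fun hh => h t (by simpa using ht) hh
      have h2 : 0 ≤ ∑ t ∈ F, (W t s).indicator (fun _ => 2 * ‖f‖) z :=
        Finset.sum_nonneg fun t' _ => indicator_nonneg (fun _ _ => by positivity) _
      linarith [(abs_lt.1 h1).2]
  have hint : Lam e E f - Lam (flip e s) E f ≤
      ε / 2 + ∑ t ∈ F, 2 * ‖f‖ * nu.real (W t s) := by
    have hi1 : Integrable (fun z => ε / 2 + ∑ t ∈ F, (W t s).indicator (fun _ => 2 * ‖f‖) z)
        nu := by
      refine (integrable_const _).add (integrable_finsetSum _ fun t _ => ?_)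
      exact (integrable_const _).indicator (hWm t s)
    calc Lam e E f - Lam (flip e s) E f
        = ∫ z in E, (f (gam e z) - f (gam (flip e s) z)) ∂nu := by
          rw [Lam_apply, Lam_apply]
          exact (integral_sub (integrableOn_gam f e E) (integrableOn_gam f _ E)).symm
      _ ≤ ∫ z in E, (ε / 2 + ∑ t ∈ F, (W t s).indicator (fun _ => 2 * ‖f‖) z) ∂nu := by
          refine setIntegral_mono_on ?_ hi1.integrableOn hE hpt
          exact (integrableOn_gam f e E).sub (integrableOn_gam f _ E)
      _ ≤ ∫ z, (ε / 2 + ∑ t ∈ F, (W t s).indicator (fun _ => 2 * ‖f‖) z) ∂nu := by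
          refine setIntegral_le_integral hi1 (Filter.Eventually.of_forall fun z => ?_)
          have : 0 ≤ ∑ t ∈ F, (W t s).indicator (fun _ => 2 * ‖f‖) z :=
            Finset.sum_nonneg fun t' _ => indicator_nonneg (fun _ _ => by positivity) _
          change (0 : ℝ) ≤ ε / 2 + ∑ t ∈ F, (W t s).indicator (fun _ => 2 * ‖f‖) z
          positivity
      _ = ε / 2 + ∑ t ∈ F, 2 * ‖f‖ * nu.real (W t s) := by
          rw [integral_add (integrable_const _)
            (integrable_finsetSum _ fun t _ => (integrable_const _).indicator (hWm t s)),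
            integral_finsetSum _ fun t _ => (integrable_const _).indicator (hWm t s)]
          congr 1
          · simp
          · refine Finset.sum_congr rfl fun t _ => ?_
            rw [integral_indicator_const _ (hWm t s), smul_eq_mul, mul_comm]
  have hsmall : ∀ t ∈ F, nu.real (W t s) ≤ c := by
    intro t ht
    have h1 := (hno t ht).le
    rw [Measure.real]
    exact ENNReal.toReal_le_of_le_ofReal hcpos.le h1
  have hsum : ∑ t ∈ F, 2 * ‖f‖ * nu.real (W t s) ≤ ε / 2 := by
    calc ∑ t ∈ F, 2 * ‖f‖ * nu.real (W t s) ≤ ∑ _t ∈ F, 2 * ‖f‖ * c := by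
          refine Finset.sum_le_sum fun t ht => ?_
          exact mul_le_mul_of_nonneg_left (hsmall t ht) (by positivity)
      _ = F.card * (2 * ‖f‖ * c) := by rw [Finset.sum_const, nsmul_eq_mul]
      _ ≤ (F.card + 1) * (2 * (‖f‖ + 1) * c) := by
          have := norm_nonneg f
          gcongr <;> linarith
      _ = ε / 2 := by
          rw [hc]
          have h1 : (0 : ℝ) < ‖f‖ + 1 := by positivity
          have h2 : (0 : ℝ) < (F.card : ℝ) + 1 := by positivity
          field_simp
          ring
  linarith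

/-- basic neighbourhoods in `K` -/
lemma exists_basic {V : Set K} (hV : IsOpen V) {x : K} (hx : x ∈ V) :
    ∃ w : Set Z, IsOpen w ∧ x.1.1 ∈ w ∧ ∃ F : Finset S,
      ∀ y : K, y.1.1 ∈ w → (∀ s ∈ F, y.1.2 s = x.1.2 s) → y ∈ V := by
  obtain ⟨V', hV', rfl⟩ := isOpen_induced_iff.1 hV
  obtain ⟨w, v, hw, hv, hxw, hxv, hwv⟩ := isOpen_prod_iff.1 hV' x.1.1 x.1.2 hx
  obtain ⟨F, u, hu, hFu⟩ := isOpen_pi_iff.1 hv x.1.2 hxv
  refine ⟨w, hw, hxw, F, fun y hy hyF => ?_⟩
  refine hwv ⟨hy, hFu ?_⟩
  intro s hs
  rw [hyF s hs]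
  exact (hu s hs).2

/-- **Key lemma.** A continuous function depends only on its essential coordinates. -/
lemma key_aux (f : C(K, ℝ)) (x y : K) (hxy : x.1.1 = y.1.1)
    (h : ∀ s, (∃ ε, 0 < ε ∧ s ∈ Aset ε f) → x.1.2 s = y.1.2 s) : f x ≤ f y := by
  classical
  by_contra hlt
  push Not at hlt
  set η : ℝ := (f x - f y) / 4 with hη
  set m : ℝ := (f x + f y) / 2 with hm
  have hη0 : 0 < η := by rw [hη]; linarith
  obtain ⟨w₁, hw₁, hxw₁, F₁, hF₁⟩ := exists_basic (V := {x' : K | m + η < f x'})
    (isOpen_lt continuous_const f.continuous) (x := x) (by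
      change m + η < f x
      rw [hη, hm]; linarith)
  obtain ⟨w₂, hw₂, hyw₂, F₂, hF₂⟩ := exists_basic (V := {x' : K | f x' < m - η})
    (isOpen_lt f.continuous continuous_const) (x := y) (by
      change f y < m - η
      rw [hη, hm]; linarith)
  choose w hw hzw hwt using exists_nhd x.1.1
  set R : Finset S := (F₁ ∪ F₂).image (phi x.1.1) with hR
  have hRC : ∀ r ∈ R, x.1.1 ∈ CC r := by
    intro r hr
    obtain ⟨t, -, rfl⟩ := Finset.mem_image.1 hr
    exact mem_CC_phi _ _
  set W : Set Z := (w₁ ∩ w₂) ∩ ⋂ t ∈ F₁ ∪ F₂, w t with hW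
  have hWo : IsOpen W := (hw₁.inter hw₂).inter (isOpen_biInter_finset fun t _ => hw t)
  have hzW : x.1.1 ∈ W := by
    refine ⟨⟨hxw₁, by rw [hxy]; exact hyw₂⟩, ?_⟩
    simp only [mem_iInter]
    exact fun t _ => hzw t
  set E : Set Z := W ∩ ⋂ r ∈ R, CC r with hE
  have hEpos : 0 < nu E := pos_of_mem R x.1.1 hRC W hWo hzW
  have hEm : MeasurableSet E :=
    hWo.measurableSet.inter (Finset.measurableSet_biInter _ fun r _ => measurableSet_CC r)
  have hEC : ∀ r ∈ R, E ⊆ CC r := by
    intro r hr z hz
    have := hz.2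
    simp only [mem_iInter] at this
    exact this r hr
  have hEw : ∀ t ∈ F₁ ∪ F₂, E ⊆ w t := by
    intro t ht z hz
    have := hz.1.2
    simp only [mem_iInter] at this
    exact this t ht
  -- the coordinates of the sections
  have hsec : ∀ (e : S → Bool) (x' : K), x'.1.1 = x.1.1 → (∀ r ∈ R, e r = x'.1.2 r) →
      ∀ z ∈ E, ∀ t ∈ F₁ ∪ F₂, (gam e z).1.2 t = x'.1.2 t := by
    intro e x' hx' he z hz t ht
    have hr : phi x.1.1 t ∈ R := Finset.mem_image_of_mem _ ht
    rw [hwt t (gam e z) (hEw t ht hz)]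
    change e (phi z (phi x.1.1 t)) = _
    rw [phi_of_mem (hEC _ hr hz), he _ hr, snd_eq_phi x' t, hx']
  -- interpolation
  let e : Finset S → S → Bool := fun Q s => if s ∈ Q then y.1.2 s else x.1.2 s
  have hstep : ∀ Q : Finset S, Q ⊆ R → Lam (e ∅) E f ≤ Lam (e Q) E f := by
    intro Q
    induction Q using Finset.induction_on with
    | empty => intro _; exact le_refl _
    | insert s Q hs ih =>
      intro hQ
      have hsR : s ∈ R := hQ (Finset.mem_insert_self _ _)
      have hQR : Q ⊆ R := (Finset.subset_insert _ _).trans hQ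
      refine (ih hQR).trans ?_
      by_cases hxs : x.1.2 s = y.1.2 s
      · have : e (insert s Q) = e Q := by
          funext t
          by_cases hts : t = s
          · subst hts
            simp only [e, Finset.mem_insert_self, if_true]
            rw [if_neg hs, hxs]
          · simp only [e, Finset.mem_insert, hts, false_or]
        rw [this]
      · have hfl : e (insert s Q) = flip (e Q) s := by
          funext t
          by_cases hts : t = s
          · subst hts
            rw [flip_self]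
            simp only [e, Finset.mem_insert_self, if_true]
            rw [if_neg hs]
            revert hxs
            cases x.1.2 t <;> cases y.1.2 t <;> simp
          · rw [flip_ne hts]
            simp only [e, Finset.mem_insert, hts, false_or]
        rw [hfl]
        by_contra hlt'
        push Not at hlt'
        refine hxs (h s ⟨(Lam (e Q) E f - Lam (flip (e Q) s) E f) / 2, by linarith,
          e Q, E, hEm, hEC s hsR, by linarith⟩)
  have h0 : ∀ z ∈ E, m + η < f (gam (e ∅) z) := by
    intro z hz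
    refine hF₁ _ hz.1.1.1 fun t ht => ?_
    exact hsec (e ∅) x rfl (fun r _ => by simp [e]) z hz t (Finset.mem_union_left _ ht)
  have h1 : ∀ z ∈ E, f (gam (e R) z) < m - η := by
    intro z hz
    refine hF₂ _ hz.1.1.2 fun t ht => ?_
    exact hsec (e R) y hxy.symm (fun r hr => by simp [e, hr]) z hz t
      (Finset.mem_union_right _ ht)
  have hEr : 0 < nu.real E := by
    rw [Measure.real]
    exact ENNReal.toReal_pos hEpos.ne' (measure_ne_top _ _)
  have h2 : (m + η) * nu.real E ≤ Lam (e ∅) E f := by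
    rw [Lam_apply]
    calc (m + η) * nu.real E = ∫ _z in E, (m + η) ∂nu := by
          rw [setIntegral_const, smul_eq_mul, mul_comm]
      _ ≤ _ := setIntegral_mono_on (integrableOn_const (measure_ne_top _ _))
          (integrableOn_gam f _ E) hEm fun z hz => (h0 z hz).le
  have h3 : Lam (e R) E f ≤ (m - η) * nu.real E := by
    rw [Lam_apply]
    calc _ ≤ ∫ _z in E, (m - η) ∂nu := setIntegral_mono_on (integrableOn_gam f _ E)
          (integrableOn_const (measure_ne_top _ _)) hEm fun z hz => (h1 z hz).le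
      _ = (m - η) * nu.real E := by
          rw [setIntegral_const, smul_eq_mul, mul_comm]
  have h4 := hstep R (Finset.Subset.refl R)
  nlinarith

lemma key (f : C(K, ℝ)) (x y : K) (hxy : x.1.1 = y.1.1)
    (h : ∀ s ∈ {s | ∃ ε, 0 < ε ∧ s ∈ Aset ε f}, x.1.2 s = y.1.2 s) : f x = f y :=
  le_antisymm (key_aux f x y hxy h) (key_aux f y x hxy.symm fun s hs => (h s hs).symm)

end Pool.Agent.MP93d788
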